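import Pool.Agent.Helper11.S3.Sheet
open MeasureTheory Metric Set Filter Topology Real
open scoped ENNReal NNReal

/-! # S3, row NUM -/

set_option autoImplicit false

namespace H11ST
namespace S3
namespace S77

theorem key (n m : ℕ) (hm : 1 ≤ m)
    (h : ((m : ℝ) ^ 2 - 40825 / 100000 * n) ^ 2 ≤ 157 / 1000 * (40825 / 100000 * n) * (m : ℝ) ^ 2) :
    (π * (m + 8165 / 10000 * n / (2 * m))) ^ 2 ≤ 67 / 4 * n := by
  have hm0 : (0 : ℝ) < m := by exact_mod_cast hm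
  have hn0 : (0 : ℝ) ≤ n := Nat.cast_nonneg n
  obtain ⟨c, hc⟩ : ∃ c : ℝ, c = 40825 / 100000 * n := ⟨_, rfl⟩
  rw [← hc] at h
  have hc0 : 0 ≤ c := by rw [hc]; positivity
  have e1 : (m : ℝ) + 8165 / 10000 * n / (2 * m) = (m ^ 2 + c) / m := by
    rw [hc]
    field_simp
    ring
  have h1 : ((m : ℝ) ^ 2 + c) ^ 2 ≤ 4157 / 1000 * c * m ^ 2 := by nlinarith
  have h2 : (((m : ℝ) ^ 2 + c) / m) ^ 2 ≤ 4157 / 1000 * c := by
    rw [div_pow, div_le_iff₀ (by positivity)]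
    exact h1
  have hpi : π ^ 2 ≤ 3.141593 ^ 2 := by
    have h3 := Real.pi_lt_d6
    have h4 := Real.pi_pos
    exact pow_le_pow_left₀ h4.le h3.le 2
  rw [e1, mul_pow]
  calc π ^ 2 * (((m : ℝ) ^ 2 + c) / m) ^ 2 ≤ 3.141593 ^ 2 * (4157 / 1000 * c) :=
        mul_le_mul hpi h2 (sq_nonneg _) (by norm_num)
    _ ≤ 67 / 4 * n := by
        rw [hc]
        nlinarith

theorem big (n : ℕ) (hn : 31 ≤ n) : ∃ m : ℕ, 1 ≤ m ∧
    ((m : ℝ) ^ 2 - 40825 / 100000 * n) ^ 2 ≤ 157 / 1000 * (40825 / 100000 * n) * (m : ℝ) ^ 2 := by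
  have hn0 : (31 : ℝ) ≤ n := by exact_mod_cast hn
  obtain ⟨c, hc⟩ : ∃ c : ℝ, c = 40825 / 100000 * n := ⟨_, rfl⟩
  rw [← hc]
  have hc1 : 1225 / 100 ≤ c := by rw [hc]; linarith
  obtain ⟨s, hs⟩ : ∃ s : ℝ, s = √c := ⟨_, rfl⟩
  have hs0 : 0 ≤ s := by rw [hs]; exact Real.sqrt_nonneg c
  have hsc : s ^ 2 = c := by rw [hs]; exact Real.sq_sqrt (by linarith)
  have hs1 : 35 / 10 ≤ s := by nlinarith
  refine ⟨⌊s + 1 / 2⌋₊, ?_, ?_⟩
  · exact Nat.le_floor (by push_cast; linarith)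
  · have h1 : ((⌊s + 1 / 2⌋₊ : ℕ) : ℝ) ≤ s + 1 / 2 := Nat.floor_le (by linarith)
    have h2 : s + 1 / 2 < (⌊s + 1 / 2⌋₊ : ℕ) + 1 := Nat.lt_floor_add_one _
    obtain ⟨m, hm⟩ : ∃ m : ℝ, m = ((⌊s + 1 / 2⌋₊ : ℕ) : ℝ) := ⟨_, rfl⟩
    rw [← hm] at h1 h2 ⊢
    rw [← hsc]
    have h3 : 3 ≤ m := by linarith
    have h4 : m + s ≤ 79 / 100 * (s * m) := by nlinarith
    have h5 : (m - s) ^ 2 ≤ 1 / 4 := by nlinarith
    have h6 : (m ^ 2 - s ^ 2) ^ 2 = (m - s) ^ 2 * (m + s) ^ 2 := by ring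
    rw [h6]
    have h7 : (m + s) ^ 2 ≤ (79 / 100 * (s * m)) ^ 2 := by
      apply pow_le_pow_left₀ (by linarith) h4
    have h8 : (m - s) ^ 2 * (m + s) ^ 2 ≤ 1 / 4 * (79 / 100 * (s * m)) ^ 2 :=
      mul_le_mul h5 h7 (sq_nonneg _) (by norm_num)
    have h9 : 0 ≤ s ^ 2 * m ^ 2 := by positivity
    nlinarith

end S77

open S77 in
theorem num : S3_NUM := by
  intro n hn
  by_cases h : 31 ≤ n
  · obtain ⟨m, hm, hk⟩ := big n h
    exact ⟨m, hm, key n m hm hk⟩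
  · have h' : n ≤ 30 := by omega
    by_cases h15 : n ≤ 14
    · exact ⟨2, by norm_num, key n 2 (by norm_num) (by interval_cases n <;> norm_num)⟩
    · by_cases h30 : n ≤ 29
      · exact ⟨3, by norm_num, key n 3 (by norm_num) (by interval_cases n <;> norm_num)⟩
      · exact ⟨4, by norm_num, key n 4 (by norm_num) (by interval_cases n <;> norm_num)⟩

end S3
end H11ST
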